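import Mathlib
import Pool.Agent.H392R3.HN.NotMet

/-!
# No finite Helly number for consistently ordered hyperplane transversals

For `d = k + 1 ≥ 3` no number `h` has the Helly property for `(d-1)`-ordered families of
pairwise disjoint compact convex sets in `ℝ^d`.

The family consists of `d - 1` points `e_1, …, e_{d-1}` spanning a `(d-2)`-flat `L` and of `3K`
segments, transversal to the pencil of hyperplanes `F_t` through `L`.  As `t` runs through
`[0,1]`, the traces of the segments on `F_t` form a configuration close to a parabola, in which
the orientation of the `c`-th triple of segments is wrong exactly for `t` between `c/K` and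
`(c+1)/K`, and all other orientations are right.
-/

open Pool.Agent.H392R3.HN

/-- For every `d = k + 1 ≥ 3` and every `h` there is a `(d-1)`-ordered family of pairwise
disjoint compact convex sets in `ℝ^d`, all of whose subfamilies with at most `h` members are met
by an oriented hyperplane consistently with the ordering, while the whole family is not. -/
theorem Pool.Agent.Results.MP_b157f3_co.NoFiniteHellyNumber.result :
    ∀ k : ℕ, 2 ≤ k → ∀ h : ℕ, ¬ IsHellyNumber k h := by
  intro k hk h hH
  refine not_met (K := h + 1) hk (Nat.succ_pos h)
    (hH (Fin (3 * (h + 1)) ⊕ Fin k) (aset (h + 1) k) (fun i => pnt (PP (h + 1) k i))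
      (p_injective hk) ?_ (fun i j hij => aset_disjoint hk i j hij) ?_)
  · intro i
    refine ⟨⟨_, left_mem_segment ℝ _ _⟩, ?_, convex_segment _ _⟩
    rw [aset, segment_eq_image_lineMap]
    exact isCompact_Icc.image AffineMap.lineMap_continuous
  · intro B hB
    have hex : ∃ c : Fin (h + 1), Sum.inl (⟨3 * c + 1, by omega⟩ : Fin (3 * (h + 1))) ∉ B := by
      by_contra hcon
      push Not at hcon
      have hcard : (Finset.univ : Finset (Fin (h + 1))).card ≤ B.card := by
        refine Finset.card_le_card_of_injOn
          (fun c => Sum.inl (⟨3 * c + 1, by omega⟩ : Fin (3 * (h + 1)))) (fun c _ => hcon c) ?_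
        intro a _ b _ hab
        simp only [Sum.inl.injEq, Fin.mk.injEq] at hab
        exact Fin.ext (by omega)
      rw [Finset.card_univ, Fintype.card_fin] at hcard
      omega
    obtain ⟨c, hc⟩ := hex
    refine met_of_missing hk _ c c.2 ?_
    intro n hn hmem
    apply hc
    have : n = ⟨3 * c + 1, by omega⟩ := Fin.ext hn
    rw [this] at hmem
    exact hmem
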